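import Mathlib
import Pool.Agent.H518R5.SC.Main

/-!
# Sequential commutation orbits of corners of a separable II_1 factor

`N` is a II_1 factor on a separable Hilbert space with trace `t`.  For a projection `p` of `N` the
corner `pNp` is considered as a subset of `N`.  `Orb t U p` is the set of sequential commutation
orbits of `pNp`: the set of Haar unitaries of `pNp` modulo the relation `Joined` (there is a finite
chain of successively commuting Haar unitaries of the ultrapower of `pNp` along `U`; unitaries of
the ultrapower are represented by sequences of unitaries).
-/

set_option autoImplicit false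

open scoped ComplexOrder Topology InnerProductSpace
open Filter

noncomputable section

namespace Pool.Agent.Results.MP_52dd0f_an.CornerOrbits

open Pool.Agent.H467F Pool.Agent.H518R4.UG Pool.Agent.H518R5.SC

/-- **Theorem.** Let `N` be a II_1 factor on a separable Hilbert space and `p ≤ q` nonzero
projections of `N`.  Then the number of sequential commutation orbits of `pNp` is `1` or the
cardinality of the continuum, and `qNq` has at most as many orbits as `pNp`. -/
theorem result :
    ∀ (H : Type) [NormedAddCommGroup H] [InnerProductSpace ℂ H] [CompleteSpace H]
      [TopologicalSpace.SeparableSpace H] (N : VonNeumannAlgebra H) (t : Elt N →ₗ[ℂ] ℂ),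
      IsIIOneFactor N (t : Elt N → ℂ) →
      ∀ U : Ultrafilter ℕ, (U : Filter ℕ) ≤ Filter.cofinite →
      ∀ p q : Elt N, IsPrj p → IsPrj q → p ≠ 0 → q * p = p →
        (Cardinal.mk (Orb t U p) = 1 ∨ Cardinal.mk (Orb t U p) = Cardinal.continuum) ∧
        Cardinal.mk (Orb t U q) ≤ Cardinal.mk (Orb t U p) :=
  Pool.Agent.H518R5.SC.fin_main

end Pool.Agent.Results.MP_52dd0f_an.CornerOrbits
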